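import Pool.Agent.J4H89.WU.Stm

/-!
# Project WU (helper89): job CUT
-/

set_option autoImplicit false
set_option linter.all false

namespace Pool.Agent.J4H42.WU

open MeasureTheory Filter Topology
open Pool.Agent.J4H89.WU
open scoped ENNReal unitInterval

theorem vol_I {A : Set ℝ} (hA : MeasurableSet A) :
    (volume : Measure I) {θ : I | (θ : ℝ) ∈ A} ≤ (volume : Measure ℝ) (A ∩ Set.Icc 0 1) := by
  have h1 : (volume : Measure I) {θ : I | (θ : ℝ) ∈ A} =
      (volume : Measure ℝ) ((Subtype.val : I → ℝ) '' {θ : I | (θ : ℝ) ∈ A}) := by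
    rw [Measure.Subtype.volume_def]
    exact comap_subtype_coe_apply measurableSet_Icc volume _
  rw [h1]
  apply measure_mono
  rintro x ⟨θ, hθ, rfl⟩
  exact ⟨hθ, θ.2⟩

theorem vol_cd (c d : ℝ≥0∞) :
    (volume : Measure I) {θ : I | c ≤ ENNReal.ofReal (θ : ℝ) ∧ ENNReal.ofReal (θ : ℝ) < d} ≤
      d - c := by
  by_cases hc : c = ∞
  · have : {θ : I | c ≤ ENNReal.ofReal (θ : ℝ) ∧ ENNReal.ofReal (θ : ℝ) < d} = ∅ := by
      ext θ
      simp [hc]
    rw [this, measure_empty]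
    exact bot_le
  by_cases hd : d = ∞
  · rw [hd, ENNReal.top_sub hc]
    exact le_top
  have h1 : {θ : I | c ≤ ENNReal.ofReal (θ : ℝ) ∧ ENNReal.ofReal (θ : ℝ) < d} ⊆
      {θ : I | (θ : ℝ) ∈ Set.Ico c.toReal d.toReal} := by
    rintro θ ⟨h1, h2⟩
    refine ⟨?_, ?_⟩
    · rw [ENNReal.le_ofReal_iff_toReal_le hc θ.2.1] at h1
      exact h1
    · rw [ENNReal.ofReal_lt_iff_lt_toReal θ.2.1 hd] at h2
      exact h2
  refine (measure_mono h1).trans ((vol_I measurableSet_Ico).trans ?_)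
  refine (measure_mono Set.inter_subset_left).trans ?_
  rw [Real.volume_Ico, ENNReal.ofReal_sub _ ENNReal.toReal_nonneg, ENNReal.ofReal_toReal hc,
    ENNReal.ofReal_toReal hd]

theorem vol_c {c : ℝ≥0∞} (hc : c ≠ ∞) :
    (volume : Measure I) {θ : I | c ≤ ENNReal.ofReal (θ : ℝ)} ≤
      ENNReal.ofReal (Real.exp (-c.toReal)) := by
  have h1 : {θ : I | c ≤ ENNReal.ofReal (θ : ℝ)} ⊆ {θ : I | (θ : ℝ) ∈ Set.Ici c.toReal} := by
    rintro θ h1
    change c ≤ ENNReal.ofReal (θ : ℝ) at h1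
    rw [ENNReal.le_ofReal_iff_toReal_le hc θ.2.1] at h1
    exact h1
  refine (measure_mono h1).trans ((vol_I measurableSet_Ici).trans ?_)
  have h2 : Set.Ici c.toReal ∩ Set.Icc 0 1 ⊆ Set.Icc c.toReal 1 := fun x hx => ⟨hx.1, hx.2.2⟩
  refine (measure_mono h2).trans ?_
  rw [Real.volume_Icc]
  apply ENNReal.ofReal_le_ofReal
  have := Real.add_one_le_exp (-c.toReal)
  linarith

theorem meas_c (c : ℝ≥0∞) : MeasurableSet {θ : I | c ≤ ENNReal.ofReal (θ : ℝ)} :=
  measurableSet_le measurable_const (ENNReal.measurable_ofReal.comp measurable_subtype_coe)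

theorem lab_eval (s : ℕ) (B : Set I) (hB : MeasurableSet B) :
    lab {θ : ℕ → I | θ s ∈ B} = (volume : Measure I) B := by
  have h := Measure.infinitePi_map_eval (fun _ : ℕ => (volume : Measure I)) s
  have h1 : (volume : Measure I) B = (lab.map fun θ : ℕ → I => θ s) B := by
    unfold lab
    rw [h]
  rw [h1, Measure.map_apply (measurable_pi_apply s) hB]
  rfl

theorem t_CUT : S_CUT := by
  intro a b L hL ha
  have hfin : ∀ s, a s ≠ ∞ := fun s => ENNReal.ne_top_of_tsum_ne_top (by rw [ha]; exact ENNReal.ofReal_ne_top) s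
  -- decomposition
  have hsub : {θ : ℕ → I | ¬ ({s | ENNReal.ofReal (θ s : ℝ) < a s} =
        {s | ENNReal.ofReal (θ s : ℝ) < b s} ∧
        {s | ENNReal.ofReal (θ s : ℝ) < a s}.Nonempty)} ⊆
      {θ : ℕ → I | ∀ s, a s ≤ ENNReal.ofReal (θ s : ℝ)} ∪
      ⋃ s, {θ : ℕ → I | θ s ∈ {t : I | b s ≤ ENNReal.ofReal (t : ℝ) ∧ ENNReal.ofReal (t : ℝ) < a s} ∪
        {t : I | a s ≤ ENNReal.ofReal (t : ℝ) ∧ ENNReal.ofReal (t : ℝ) < b s}} := by
    intro θ hθ
    by_cases h1 : ∀ s, a s ≤ ENNReal.ofReal (θ s : ℝ)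
    · exact Or.inl h1
    right
    push Not at h1
    have h2 : {s | ENNReal.ofReal (θ s : ℝ) < a s}.Nonempty := h1
    have h3 : ¬ {s | ENNReal.ofReal (θ s : ℝ) < a s} = {s | ENNReal.ofReal (θ s : ℝ) < b s} :=
      fun h => hθ ⟨h, h2⟩
    rw [Set.mem_iUnion]
    by_contra h4
    push Not at h4
    apply h3
    ext s
    have h5 := h4 s
    simp only [Set.mem_setOf_eq, Set.mem_union, not_or, not_and, not_lt] at h5 ⊢
    constructor
    · intro h6
      by_contra h7
      exact absurd h6 (not_lt.2 (h5.1 (not_lt.1 h7)))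
    · intro h6
      by_contra h7
      exact absurd h6 (not_lt.2 (h5.2 (not_lt.1 h7)))
  refine (measure_mono hsub).trans ((measure_union_le _ _).trans (add_le_add ?_ ?_))
  · -- the product
    have h1 : ∀ S : Finset ℕ, lab {θ : ℕ → I | ∀ s, a s ≤ ENNReal.ofReal (θ s : ℝ)} ≤
        ENNReal.ofReal (Real.exp (-∑ s ∈ S, (a s).toReal)) := by
      intro S
      have h2 : {θ : ℕ → I | ∀ s, a s ≤ ENNReal.ofReal (θ s : ℝ)} ⊆
          Set.pi (S : Set ℕ) fun s => {t : I | a s ≤ ENNReal.ofReal (t : ℝ)} :=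
        fun θ hθ s _ => hθ s
      refine (measure_mono h2).trans ?_
      unfold lab
      rw [Measure.infinitePi_pi _ fun s _ => meas_c (a s)]
      rw [← Finset.sum_neg_distrib, Real.exp_sum, ENNReal.ofReal_prod_of_nonneg fun s _ =>
        (Real.exp_pos _).le]
      exact Finset.prod_le_prod' fun s _ => vol_c (hfin s)
    have h2 : HasSum (fun s => (a s).toReal) L := by
      have h3 := ENNReal.hasSum_toReal (f := a) (by rw [ha]; exact ENNReal.ofReal_ne_top)
      rw [← ENNReal.tsum_toReal_eq hfin, ha, ENNReal.toReal_ofReal hL] at h3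
      exact h3
    have h3 : Tendsto (fun S : Finset ℕ => ENNReal.ofReal (Real.exp (-∑ s ∈ S, (a s).toReal))) atTop
        (𝓝 (ENNReal.ofReal (Real.exp (-L)))) :=
      (ENNReal.continuous_ofReal.tendsto _).comp ((Real.continuous_exp.tendsto _).comp
        (Filter.Tendsto.neg h2))
    exact ge_of_tendsto' h3 h1
  · refine (measure_iUnion_le _).trans ?_
    refine ENNReal.tsum_le_tsum fun s => ?_
    have hm1 : ∀ c d : ℝ≥0∞, MeasurableSet {t : I | c ≤ ENNReal.ofReal (t : ℝ) ∧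
        ENNReal.ofReal (t : ℝ) < d} := fun c d =>
      (meas_c c).inter (measurableSet_lt (ENNReal.measurable_ofReal.comp measurable_subtype_coe)
        measurable_const)
    rw [lab_eval s _ ((hm1 _ _).union (hm1 _ _))]
    refine (measure_union_le _ _).trans ?_
    exact add_le_add (vol_cd _ _) (vol_cd _ _)

end Pool.Agent.J4H42.WU
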