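import Pool.Agent.J4H89.WU.Stm

/-!
# Project WU (helper89): job TOW
-/

set_option autoImplicit false
set_option linter.all false

namespace Pool.Agent.J4H42.WU

open MeasureTheory Filter Topology
open Pool.Agent.J4H89.WU
open Pool.Agent.TH968.UST
open scoped ENNReal unitInterval

section same

variable {ns : ℕ → ℕ} {G : SimpleGraph ℕ} {θ : ℕ → ℕ → I} {m k x y z : ℕ}

theorem same_refl : same ns G θ m x x := Or.inl rfl

theorem same_symm (h : same ns G θ m x y) : same ns G θ m y x := by
  rcases h with h | ⟨h1, h2⟩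
  · exact Or.inl h.symm
  · exact Or.inr ⟨h1.symm, h1 ▸ h2⟩

theorem same_trans (h : same ns G θ m x y) (h' : same ns G θ m y z) : same ns G θ m x z := by
  rcases h with rfl | ⟨h1, h2⟩
  · exact h'
  · rcases h' with rfl | ⟨h3, h4⟩
    · exact Or.inr ⟨h1, h2⟩
    · exact Or.inr ⟨h1.trans h3, h2⟩

theorem self_mem : x ∈ cellSet ns G θ k x := fun _ _ => same_refl

theorem cellSet_eq (h : y ∈ cellSet ns G θ k x) : cellSet ns G θ k y = cellSet ns G θ k x := by
  ext z
  exact ⟨fun hz m hm => same_trans (h m hm) (hz m hm),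
    fun hz m hm => same_trans (same_symm (h m hm)) (hz m hm)⟩

theorem cellSet_mono : cellSet ns G θ k x ⊆ cellSet ns G θ (k + 1) x :=
  fun _ h m hm => h m (by omega)

theorem ces_of_cap {s : ℕ} (h : s ∈ cap ns G θ m x) : ces G (ns m) x s ≠ 0 := by
  intro h0
  have h1 : ENNReal.ofReal (θ s m : ℝ) < ((m : ℝ≥0∞) + 1) * ces G (ns m) x s := h
  rw [h0, mul_zero] at h1
  exact not_lt_bot h1

theorem comp_of_same (hW : S_WALK) {x0 : ℕ} (hx : x ∈ comp G x0) (h : same ns G θ m x y) :
    y ∈ comp G x0 := by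
  rcases h with rfl | ⟨h1, s, hs⟩
  · exact hx
  · have h2 := hW.2.2 G (ns m) x s (ces_of_cap hs)
    have h3 := hW.2.2 G (ns m) y s (ces_of_cap (by rw [← h1]; exact hs))
    exact SimpleGraph.Reachable.trans hx (h2.trans h3.symm)

theorem cellSet_fin (hW : S_WALK) {x0 : ℕ} (hL : LocFin G x0) (hx : x ∈ comp G x0) :
    (cellSet ns G θ k x).Finite := by
  by_cases h : (cap ns G θ k x).Nonempty
  · obtain ⟨s, hs⟩ := h
    have h2 := hW.2.2 G (ns k) x s (ces_of_cap hs)
    have hs0 : s ∈ comp G x0 := SimpleGraph.Reachable.trans hx h2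
    have hLs : LocFin G s := fun y hy => hL y (SimpleGraph.Reachable.trans hs0 hy)
    refine Set.Finite.subset ((hW.2.1 G s (ns k) hLs).union (Set.finite_singleton x)) ?_
    intro y hy
    rcases hy k le_rfl with h1 | ⟨h1, -⟩
    · exact Or.inr h1.symm
    · exact Or.inl (ces_of_cap (by rw [← h1]; exact hs))
  · refine Set.Finite.subset (Set.finite_singleton x) ?_
    intro y hy
    rcases hy k le_rfl with h1 | ⟨h1, h2⟩
    · exact h1.symm
    · exact absurd h2 h

theorem cell_coe (hW : S_WALK) {x0 : ℕ} (hL : LocFin G x0) (hx : x ∈ comp G x0) :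
    (cell ns G θ (k + 1) x : Set ℕ) = cellSet ns G θ k x := by
  have hf : (cellSet ns G θ k x).Finite := cellSet_fin hW hL hx
  have h : cell ns G θ (k + 1) x = hf.toFinset := by
    simp only [cell, dif_pos hf]
  rw [h, Set.Finite.coe_toFinset]

/-- The deterministic part. -/
theorem tower_of (hW : S_WALK) {x0 : ℕ} (hL : LocFin G x0)
    (h : ∀ x ∈ comp G x0, ∀ y ∈ comp G x0, G.Adj x y → ∀ᶠ m in atTop, same ns G θ m x y) :
    Tower G (comp G x0) (cell ns G θ) := by
  have hmem : ∀ k, ∀ x ∈ comp G x0, ∀ y, y ∈ cell ns G θ (k + 1) x ↔ y ∈ cellSet ns G θ k x := by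
    intro k x hx y
    rw [← cell_coe hW hL hx, Finset.mem_coe]
  refine ⟨fun x _ => rfl, ?_, ?_, ?_, ?_, ?_⟩
  · intro k x hx
    cases k with
    | zero => exact Finset.mem_singleton_self x
    | succ k => exact (hmem k x hx x).2 self_mem
  · intro k x hx y hy
    cases k with
    | zero =>
      have : y = x := Finset.mem_singleton.1 hy
      rw [this]; exact hx
    | succ k => exact comp_of_same hW hx (((hmem k x hx y).1 hy) k le_rfl)
  · intro k x hx y hy
    cases k with
    | zero =>
      have : y = x := Finset.mem_singleton.1 hy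
      rw [this]
    | succ k =>
      have h1 := (hmem k x hx y).1 hy
      have hyK : y ∈ comp G x0 := comp_of_same hW hx (h1 k le_rfl)
      apply Finset.coe_injective
      rw [cell_coe hW hL hx, cell_coe hW hL hyK, cellSet_eq h1]
  · intro k x hx y hy
    cases k with
    | zero =>
      have : y = x := Finset.mem_singleton.1 hy
      rw [this]; exact (hmem 0 x hx x).2 self_mem
    | succ k => exact (hmem (k + 1) x hx y).2 (cellSet_mono ((hmem k x hx y).1 hy))
  · intro x hx y hy hxy
    obtain ⟨k, hk⟩ := eventually_atTop.1 (h x hx y hy hxy)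
    exact ⟨k + 1, (hmem k x hx y).2 fun m hm => hk m hm⟩

end same

theorem lab2_lvl (m : ℕ) : lab2.map (fun (θ : ℕ → ℕ → I) s => θ s m) = lab := by
  have h := Measure.infinitePi_map_pi (μ := fun _ : ℕ => lab) (f := fun (_ : ℕ) (θ : ℕ → I) => θ m)
    (fun _ => measurable_pi_apply m)
  have h2 : lab.map (fun θ : ℕ → I => θ m) = (volume : Measure I) :=
    Measure.infinitePi_map_eval (fun _ : ℕ => (volume : Measure I)) m
  unfold lab2
  rw [h]
  simp only [h2]
  rfl

theorem exp_sum : ∑' m : ℕ, ENNReal.ofReal (Real.exp (-((m : ℝ) + 1))) ≠ ∞ := by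
  have h : Summable fun m : ℕ => Real.exp (-((m : ℝ) + 1)) := by
    have h1 := (Real.summable_exp_neg_nat).mul_left (Real.exp (-1))
    refine h1.congr fun m => ?_
    rw [← Real.exp_add]
    congr 1
    ring
  exact h.tsum_ofReal_ne_top

theorem ad_mul (c a b : ℝ≥0∞) (hc : c ≠ ∞) : ad (c * a) (c * b) = c * ad a b := by
  unfold ad
  rw [mul_add, ENNReal.mul_sub (fun _ _ => hc), ENNReal.mul_sub (fun _ _ => hc)]

theorem t_TOW (hW : S_WALK) (hC : S_CUT) : S_TOW := by
  intro ns hns G x0 hL hG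
  have key : ∀ x ∈ comp G x0, ∀ y, G.Adj x y →
      ∀ᵐ θ ∂lab2, ∀ᶠ m in atTop, same ns G θ m x y := by
    intro x hx y hxy
    have hLx : LocFin G x := fun z hz => hL z (SimpleGraph.Reachable.trans hx hz)
    have hbad : ∀ m, lab2 {θ | ¬ same ns G θ m x y} ≤
        ENNReal.ofReal (Real.exp (-((m : ℝ) + 1))) +
          ((m : ℝ≥0∞) + 1) * min (dl G (ns m) x) 1 := by
      intro m
      by_cases hd : 1 ≤ dl G (ns m) x
      · rw [min_eq_right hd, mul_one]
        refine prob_le_one.trans ?_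
        refine le_add_left ?_
        exact le_add_left le_rfl
      push Not at hd
      rw [min_eq_left hd.le]
      have hc : ((m : ℝ≥0∞) + 1) ≠ ∞ := by finiteness
      have hsum : ∑' s, ((m : ℝ≥0∞) + 1) * ces G (ns m) x s = ENNReal.ofReal ((m : ℝ) + 1) := by
        rw [ENNReal.tsum_mul_left, hW.1 G x (ns m) (hns m) hLx ⟨y, hxy⟩, mul_one,
          ENNReal.ofReal_add (Nat.cast_nonneg m) zero_le_one, ENNReal.ofReal_natCast,
          ENNReal.ofReal_one]
      have h1 := hC (fun s => ((m : ℝ≥0∞) + 1) * ces G (ns m) x s)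
        (fun s => ((m : ℝ≥0∞) + 1) * ces G (ns m) y s) ((m : ℝ) + 1) (by positivity) hsum
      have h2 : {θ : ℕ → ℕ → I | ¬ same ns G θ m x y} ⊆ (fun (θ : ℕ → ℕ → I) s => θ s m) ⁻¹'
          {θ : ℕ → I | ¬ ({s | ENNReal.ofReal (θ s : ℝ) < ((m : ℝ≥0∞) + 1) * ces G (ns m) x s} =
            {s | ENNReal.ofReal (θ s : ℝ) < ((m : ℝ≥0∞) + 1) * ces G (ns m) y s} ∧
            {s | ENNReal.ofReal (θ s : ℝ) < ((m : ℝ≥0∞) + 1) * ces G (ns m) x s}.Nonempty)} := by
        intro θ hθ h3
        exact hθ (Or.inr h3)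
      have hme : Measurable (fun (θ : ℕ → ℕ → I) s => θ s m) :=
        measurable_pi_lambda _ fun s => (measurable_pi_apply m).comp (measurable_pi_apply s)
      refine (measure_mono h2).trans ?_
      refine (Measure.le_map_apply hme.aemeasurable _).trans ?_
      rw [lab2_lvl]
      refine h1.trans (add_le_add le_rfl ?_)
      simp only [ad_mul _ _ _ hc]
      rw [ENNReal.tsum_mul_left]
      refine mul_le_mul_right ?_ _
      unfold dl
      refine le_trans ?_ (ENNReal.le_tsum y)
      rw [if_pos hxy]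
    have hsum : ∑' m, lab2 {θ | ¬ same ns G θ m x y} ≠ ∞ := by
      refine ne_top_of_le_ne_top ?_ (ENNReal.tsum_le_tsum hbad)
      rw [ENNReal.tsum_add]
      exact ENNReal.add_ne_top.2 ⟨exp_sum, hG x hx⟩
    have h3 := ae_eventually_notMem hsum
    filter_upwards [h3] with θ hθ
    filter_upwards [hθ] with m hm
    by_contra h4
    exact hm h4
  have key2 : ∀ᵐ θ ∂lab2, ∀ x, ∀ y, x ∈ comp G x0 → G.Adj x y →
      ∀ᶠ m in atTop, same ns G θ m x y := by
    rw [ae_all_iff]
    intro x
    rw [ae_all_iff]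
    intro y
    by_cases hx : x ∈ comp G x0
    · by_cases hxy : G.Adj x y
      · filter_upwards [key x hx y hxy] with θ hθ _ _
        exact hθ
      · exact Eventually.of_forall fun θ _ h => absurd h hxy
    · exact Eventually.of_forall fun θ h => absurd h hx
  filter_upwards [key2] with θ hθ
  exact tower_of hW hL fun x hx y _ hxy => hθ x y hx hxy


end Pool.Agent.J4H42.WU
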